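import Pool.Agent.Helper46.NU.Goals1

/-!
Packet COH: a generic coordinate agrees on infinitely many blocks with every visible real.
-/

open MeasureTheory Filter Topology Set
open scoped ENNReal

noncomputable section

namespace NU.PkCOH

open NU

theorem meas_CF {S : Sys} (b : CF S) : Measurable b.1 := by
  obtain ⟨F, hF⟩ := b.2
  classical
  have h : b.1 = (fun x : F → Bool => b.1 fun c m => if h : (c, m) ∈ F then x ⟨(c, m), h⟩ else false) ∘
      (fun z : Pt S => fun p : F => z p.1.1 p.1.2) := by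
    funext z
    apply hF
    intro p hp
    simp only [hp, dif_pos]
  rw [h]
  refine Measurable.comp (measurable_of_finite _) ?_
  exact measurable_pi_lambda _ fun p => (measurable_pi_apply _).comp (measurable_pi_apply _)

open Classical in
theorem meas_mask {S : Sys} (q : S.C) : Measurable (mask S q) := by
  refine measurable_pi_lambda _ fun c => measurable_pi_lambda _ fun m => ?_
  unfold mask
  by_cases h : S.see q c
  · simp only [h, if_true]
    exact (measurable_pi_apply _).comp (measurable_pi_apply _)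
  · simp only [h, if_false]
    exact measurable_const

theorem mask_congr {S : Sys} {q : S.C} {z z' : Pt S} (h : ∀ c, S.see q c → z c = z' c) :
    mask S q z = mask S q z' := by
  funext c m
  unfold mask
  by_cases hc : S.see q c
  · simp only [hc, if_true, h c hc]
  · simp only [hc, if_false]

/-- sets that depend on the visible part only -/
theorem pr_congr (loc : G_LOC) {S : Sys} {q : S.C} {T : Set (Pt S)}
    (hT : ∀ z z', (∀ c, S.see q c → z c = z' c) → (z ∈ T ↔ z' ∈ T)) {φ φ' : Ph S}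
    (h : ∀ c, S.see q c → ∀ n, φ (c, n) = φ' (c, n)) : pr S φ T = pr S φ' T := by
  unfold pr
  congr 1
  ext ω
  apply hT
  exact loc S {c | S.see q c} (fun c hc c' hc' => S.tr hc hc') φ φ' ω ω h (fun _ _ => rfl)

theorem not_see_self (S : Sys) (q : S.C) : ¬ S.see q q := by
  intro h
  exact (S.wf.irrefl).irrefl q h

theorem tail (δ : ℝ≥0∞) (hδ : δ ≠ 0) (n₀ : ℕ) : ∃ n, n₀ ≤ n ∧ rho {s | 2 ^ n < s.1} < δ := by
  have h1 : Tendsto (fun n : ℕ => rho {s : ℕ × (ℕ → Bool) | 2 ^ n < s.1}) atTop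
      (𝓝 (rho (⋂ n : ℕ, {s : ℕ × (ℕ → Bool) | 2 ^ n < s.1}))) := by
    apply tendsto_measure_iInter_atTop
    · intro n
      exact (measurableSet_lt measurable_const measurable_fst).nullMeasurableSet
    · intro m n hmn s hs
      have : 2 ^ m ≤ 2 ^ n := Nat.pow_le_pow_right (by norm_num) hmn
      exact lt_of_le_of_lt this hs
    · exact ⟨0, measure_ne_top _ _⟩
  have h2 : (⋂ n : ℕ, {s : ℕ × (ℕ → Bool) | 2 ^ n < s.1}) = ∅ := by
    rw [Set.eq_empty_iff_forall_notMem]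
    intro s hs
    have h3 := Set.mem_iInter.1 hs s.1
    have h4 : s.1 < 2 ^ s.1 := Nat.lt_two_pow_self
    exact absurd (lt_trans h4 h3) (lt_irrefl _)
  rw [h2, measure_empty] at h1
  obtain ⟨n, hn, hn'⟩ := ((h1.eventually (gt_mem_nhds (pos_iff_ne_zero.2 hδ))).and
    (eventually_ge_atTop n₀)).exists
  exact ⟨n, hn', hn⟩

theorem PP_eval (S : Sys) (q : S.C) (A : Set (ℕ × (ℕ → Bool))) (hA : MeasurableSet A) :
    PP S {ω | ω q ∈ A} = rho A := by
  have h := measurePreserving_eval_infinitePi (fun _ : S.C => rho) q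
  have h2 := h.measure_preimage hA.nullMeasurableSet
  exact h2

theorem isOpen_agr {S : Sys} (F : Finset (S.C × ℕ)) (φ₀ : Ph S) :
    IsOpen {φ : Ph S | Agr F φ₀ φ} := by
  have h : {φ : Ph S | Agr F φ₀ φ} = ⋂ p ∈ F, (fun φ : Ph S => φ p) ⁻¹' {φ₀ p} := by
    ext φ
    simp [Agr]
  rw [h]
  exact isOpen_biInter_finset fun p _ => (isOpen_discrete _).preimage (continuous_apply p)

/-- the error set -/
def TT {S : Sys} (q : S.C) (w : Pt S → ℕ → Bool) (b : CF S) (m : ℕ) : Set (Pt S) :=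
  {z | ¬ (b.1 (mask S q z) = true ↔ w z m = true)}

theorem meas_TT {S : Sys} (q : S.C) {w : Pt S → ℕ → Bool} (hw : Measurable w) (b : CF S) (m : ℕ) :
    MeasurableSet (TT q w b m) := by
  have h1 : Measurable fun z : Pt S => b.1 (mask S q z) := (meas_CF b).comp (meas_mask q)
  have h2 : Measurable fun z : Pt S => w z m := (measurable_pi_apply m).comp hw
  have h : TT q w b m = {z | b.1 (mask S q z) = w z m}ᶜ := by
    ext z
    show ¬ (b.1 (mask S q z) = true ↔ w z m = true) ↔ ¬ (b.1 (mask S q z) = w z m)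
    exact not_congr (@Bool.eq_iff_iff (b.1 (mask S q z)) (w z m)).symm
  rw [h]
  exact (measurableSet_eq_fun h1 h2).compl

theorem vis_TT {S : Sys} {q : S.C} {w : Pt S → ℕ → Bool}
    (hvis : ∀ z z', (∀ c, S.see q c → z c = z' c) → w z = w z') (b : CF S) (m : ℕ) (z z' : Pt S)
    (h : ∀ c, S.see q c → z c = z' c) : z ∈ TT q w b m ↔ z' ∈ TT q w b m := by
  unfold TT
  simp only [mem_ofPred_eq]
  rw [mask_congr h, hvis z z' h]

theorem coh (star : G_STAR) (bm : G_BM) (cyl : G_CYL) (ovr_ : G_OVR) (loc : G_LOC) (apx : G_APX)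
    (bai : G_BAI) (_mz : G_MZ) : G_COH := by
  classical
  intro S q hq w hw hvis
  have bS : BaireSpace (Ph S) := bai (S.C × ℕ) (CF S)
  have hne : Nonempty (Ph S) := ⟨fun _ => ⟨fun _ => false, ∅, fun _ _ _ => rfl⟩⟩
  set K : ℕ → Set (Pt S) := fun n₀ => {z | ∀ n, n₀ ≤ n → ∃ m ∈ blk n, w z m ≠ z q m} with hK
  have hset : {z | ¬ w z ∈ Nset (z q)} = ⋃ n₀ : ℕ, K n₀ := by
    ext z
    simp only [hK, Nset, mem_ofPred_eq, mem_iUnion, not_frequently, eventually_atTop]
    constructor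
    · rintro ⟨a, ha⟩
      refine ⟨a, fun n hn => ?_⟩
      have := ha n hn
      push Not at this
      exact this
    · rintro ⟨a, ha⟩
      refine ⟨a, fun n hn => ?_⟩
      push Not
      exact ha n hn
  have hwm : ∀ m, Measurable fun z : Pt S => w z m := fun m => (measurable_pi_apply m).comp hw
  have hqm : ∀ m, Measurable fun z : Pt S => z q m := fun m =>
    (measurable_pi_apply m).comp (measurable_pi_apply q)
  have hmeasK : ∀ n₀, MeasurableSet (K n₀) := by
    intro n₀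
    have h : K n₀ = ⋂ n : ℕ, ⋂ (_ : n₀ ≤ n), ⋃ m ∈ blk n, {z | w z m = z q m}ᶜ := by
      ext z
      simp [hK]
    rw [h]
    refine MeasurableSet.iInter fun n => MeasurableSet.iInter fun _ => ?_
    refine (blk n).measurableSet_biUnion fun m _ => ?_
    exact (measurableSet_eq_fun (hwm m) (hqm m)).compl
  rw [hset]
  suffices h : ∀ n₀, Nul S (K n₀) by
    have h1 : ∀ᶠ φ in residual (Ph S), ∀ n₀, pr S φ (K n₀) = 0 := eventually_countable_forall.2 h
    filter_upwards [h1] with φ hφ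
    unfold pr at hφ ⊢
    have h2 : {ω | zz S φ ω ∈ ⋃ n₀, K n₀} = ⋃ n₀, {ω | zz S φ ω ∈ K n₀} := by
      ext ω; simp
    rw [h2]
    exact measure_iUnion_null hφ
  intro n₀
  by_contra hn
  obtain ⟨δ', hδ', hres'⟩ := star S _ (hmeasK n₀) hn
  obtain ⟨δ, hδ0, hδ1, hδδ⟩ : ∃ δ : ℝ≥0∞, δ ≠ 0 ∧ δ ≤ 1 ∧ δ ≤ δ' :=
    ⟨min δ' 1, by
      rw [← pos_iff_ne_zero, lt_min_iff]
      exact ⟨pos_iff_ne_zero.2 hδ', one_pos⟩, min_le_right _ _, min_le_left _ _⟩
  have hδt : δ ≠ ⊤ := ne_top_of_le_ne_top ENNReal.one_ne_top hδ1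
  have hres : ∀ᶠ φ in residual (Ph S), δ ≤ pr S φ (K n₀) := by
    filter_upwards [hres'] with φ hφ using hδδ.trans hφ
  have hδ2 : δ / 2 ≠ 0 := by
    rw [← pos_iff_ne_zero]
    exact ENNReal.half_pos hδ0
  obtain ⟨n, hn0, htail⟩ := tail (δ / 2) hδ2 n₀
  set N : ℝ≥0∞ := ((blk n).card : ℝ≥0∞) + 1 with hN
  have hN0 : N ≠ 0 := by
    rw [← pos_iff_ne_zero]
    exact lt_of_lt_of_le one_pos le_add_self
  have hNt : N ≠ ⊤ := ENNReal.add_ne_top.2 ⟨ENNReal.natCast_ne_top _, ENNReal.one_ne_top⟩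
  set η : ℝ≥0∞ := δ / 2 / N with hη
  have hη0 : η ≠ 0 := ENNReal.div_ne_zero.2 ⟨hδ2, hNt⟩
  have hηN : ((blk n).card : ℝ≥0∞) * η ≤ δ / 2 := by
    calc ((blk n).card : ℝ≥0∞) * η ≤ N * η := by gcongr; exact le_self_add
      _ = δ / 2 := by rw [hη]; exact ENNReal.mul_div_cancel hN0 hNt
  -- approximations
  have happ : ∀ m : ℕ, ∃ b : ℕ → CF S, ∀ (φ : Ph S) (η : ℝ≥0∞), η ≠ 0 →
      ∃ j, pr S φ (TT q w (b j) m) < η := by
    intro m
    exact apx S q {z | w z m = true} ((hwm m) (measurableSet_singleton true))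
      (fun z z' h => by
        have : w z = w z' := hvis z z' h
        simp only [mem_ofPred_eq, this])
  choose b hb using happ
  set Ej : ({m // m ∈ blk n} → ℕ) → Set (Ph S) := fun j =>
    {φ | ∀ m : {m // m ∈ blk n}, pr S φ (TT q w (b m (j m)) m) < η} with hEj
  have hEbm : ∀ j, BaireMeasurableSet (Ej j) := by
    intro j
    have h : Ej j = ⋂ m : {m // m ∈ blk n}, {φ | η ≤ pr S φ (TT q w (b m (j m)) m)}ᶜ := by
      ext φ
      simp [hEj]
    rw [h]
    exact BaireMeasurableSet.iInter fun m => (bm S _ (meas_TT q hw _ _) η).compl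
  have hcov : ∀ φ : Ph S, ∃ j, φ ∈ Ej j := by
    intro φ
    have h : ∀ m : {m // m ∈ blk n}, ∃ j, pr S φ (TT q w (b m j) m) < η := fun m =>
      hb m φ η hη0
    choose j hj using h
    exact ⟨j, hj⟩
  obtain ⟨j, hj⟩ : ∃ j, ¬ ∀ᶠ φ in residual (Ph S), φ ∉ Ej j := by
    by_contra hcon
    push Not at hcon
    have h1 : ∀ᶠ φ in residual (Ph S), ∀ j, φ ∉ Ej j := eventually_countable_forall.2 hcon
    obtain ⟨φ, hφ⟩ := (dense_of_mem_residual h1).nonempty
    obtain ⟨j, hj⟩ := hcov φ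
    exact hφ j hj
  obtain ⟨F, φ₁, -, -, hF⟩ := cyl S (Ej j) (hEbm j) ∅ (Classical.arbitrary _) (by
    intro hcon
    apply hj
    filter_upwards [hcon] with φ hφ
    apply hφ
    intro p hp
    exact absurd hp (Finset.notMem_empty _))
  set G := F.filter (fun p => p.1 = q) with hG
  have hov := ovr_ S G φ₁ (fun φ => Agr (F \ G) φ₁ φ → φ ∈ Ej j) (by
    filter_upwards [hF] with φ hφ h1 h2
    apply hφ
    intro p hp
    by_cases hpG : p ∈ G
    · exact h1 p hpG
    · exact h2 p (Finset.mem_sdiff.2 ⟨hp, hpG⟩))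
  have hov2 : ∀ᶠ φ in residual (Ph S), Agr (F \ G) φ₁ φ → φ ∈ Ej j := by
    filter_upwards [hov] with φ hφ h1
    have h2 : ovr G φ₁ φ ∈ Ej j := by
      apply hφ
      intro p hp
      have hpG : p ∉ G := (Finset.mem_sdiff.1 hp).2
      unfold ovr
      rw [if_neg hpG]
      exact h1 p hp
    intro m
    have h3 := h2 m
    rwa [pr_congr loc (T := TT q w (b m (j m)) m) (vis_TT hvis _ _) (φ := ovr G φ₁ φ) (φ' := φ)] at h3
    intro c hc k
    unfold ovr
    rw [if_neg]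
    intro hcon
    have : c = q := (Finset.mem_filter.1 hcon).2
    rw [this] at hc
    exact not_see_self S q hc
  -- the final condition
  set F2 : Finset (S.C × ℕ) := (F \ G) ∪ (blk n).image (fun m => (q, m)) with hF2
  set φ₂ : Ph S := fun p => if h : p.1 = q ∧ p.2 ∈ blk n then b p.2 (j ⟨p.2, h.2⟩) else φ₁ p with hφ₂
  have hdense : Dense {φ : Ph S | (Agr (F \ G) φ₁ φ → φ ∈ Ej j) ∧ δ ≤ pr S φ (K n₀)} :=
    dense_of_mem_residual (hov2.and hres)
  obtain ⟨φ, hφU, hφ1, hφ2⟩ := hdense.inter_open_nonempty _ (isOpen_agr F2 φ₂)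
    ⟨φ₂, fun p _ => rfl⟩
  have hφU' : Agr F2 φ₂ φ := hφU
  have hφE : φ ∈ Ej j := by
    apply hφ1
    intro p hp
    rw [hφU' p (Finset.mem_union_left _ hp)]
    simp only [hφ₂]
    rw [dif_neg]
    rintro ⟨h1, -⟩
    have h2 := Finset.mem_sdiff.1 hp
    exact h2.2 (Finset.mem_filter.2 ⟨h2.1, h1⟩)
  have hsub : {ω | zz S φ ω ∈ K n₀} ⊆ {ω | ω q ∈ {s : ℕ × (ℕ → Bool) | 2 ^ n < s.1}} ∪
      ⋃ m : {m // m ∈ blk n}, {ω | zz S φ ω ∈ TT q w (b m (j m)) m} := by
    intro ω hω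
    by_contra hcon
    rw [mem_union, not_or] at hcon
    obtain ⟨h1, h2⟩ := hcon
    have h1' : (ω q).1 ≤ 2 ^ n := not_lt.1 h1
    obtain ⟨m, hm, hmne⟩ := hω n hn0
    apply hmne
    have h3 : zz S φ ω ∉ TT q w (b m (j ⟨m, hm⟩)) m := by
      intro h4
      exact h2 (mem_iUnion.2 ⟨⟨m, hm⟩, h4⟩)
    have h4 : (b m (j ⟨m, hm⟩)).1 (mask S q (zz S φ ω)) = w (zz S φ ω) m := by
      unfold TT at h3
      simp only [mem_ofPred_eq, not_not] at h3
      exact Bool.eq_iff_iff.2 h3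
    have h5 : 2 ^ n ≤ m := (Finset.mem_Ico.1 hm).1
    have h6 : φ (q, m) = b m (j ⟨m, hm⟩) := by
      rw [hφU' (q, m) (Finset.mem_union_right _ (Finset.mem_image.2 ⟨m, hm, rfl⟩))]
      simp only [hφ₂]
      rw [dif_pos ⟨trivial, hm⟩]
    rw [zz_eq, if_neg, h6, h4]
    rintro (h7 | h7)
    · omega
    · exact h7 hq
  have hle : pr S φ (K n₀) < δ := by
    calc pr S φ (K n₀) ≤ PP S ({ω | ω q ∈ {s : ℕ × (ℕ → Bool) | 2 ^ n < s.1}} ∪
          ⋃ m : {m // m ∈ blk n}, {ω | zz S φ ω ∈ TT q w (b m (j m)) m}) := measure_mono hsub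
      _ ≤ PP S {ω | ω q ∈ {s : ℕ × (ℕ → Bool) | 2 ^ n < s.1}} +
          PP S (⋃ m : {m // m ∈ blk n}, {ω | zz S φ ω ∈ TT q w (b m (j m)) m}) :=
        measure_union_le _ _
      _ ≤ rho {s : ℕ × (ℕ → Bool) | 2 ^ n < s.1} + δ / 2 := by
        refine add_le_add (PP_eval S q _ (measurableSet_lt measurable_const measurable_fst)).le ?_
        refine (measure_iUnion_fintype_le _ _).trans ?_
        calc ∑ m : {m // m ∈ blk n}, PP S {ω | zz S φ ω ∈ TT q w (b m (j m)) m}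
            ≤ ∑ _m : {m // m ∈ blk n}, η := Finset.sum_le_sum fun m _ => (hφE m).le
          _ = ((blk n).card : ℝ≥0∞) * η := by
            rw [Finset.sum_const, Finset.card_univ, Fintype.card_coe, nsmul_eq_mul]
          _ ≤ δ / 2 := hηN
      _ < δ / 2 + δ / 2 := by
        refine ENNReal.add_lt_add_right ?_ htail
        exact (ENNReal.div_lt_top hδt (by norm_num)).ne
      _ = δ := ENNReal.add_halves δ
  exact absurd hφ2 (not_le.2 hle)

end NU.PkCOH
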