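import Pool.Agent.Helper46.NU.Names
import Pool.Agent.Helper46.FL.Lib

/-!
Packet NU1: from a null set to codes.
-/

open MeasureTheory Filter Topology Set
open scoped ENNReal

noncomputable section

namespace NU.PkNU1

open NU Pool.Agent.Helper97.Ku

variable {S : Sys} {L : Type} [CompleteBooleanAlgebra L] {e : Set (Pt S) → L}

theorem e_mono (h : AlgI S L e) {K K' : Set (Pt S)} (hK : MeasurableSet K) (hK' : MeasurableSet K')
    (hs : K ⊆ K') : e K ≤ e K' := by
  rw [h.le K K' hK hK', sdiff_eq_empty.2 hs]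
  refine Eventually.of_forall fun φ => ?_
  simp [pr]

/-- the four clauses -/
theorem clauses {k : ℕ} {G : BSet L} {b : L} (nat : G_NAT) (fn2 : G_FN2)
    (h : b ≤ codeV omN (nn k) G) :
    (∀ t : BSet L, b ⊓ t.mem G ≤ ⨆ n : BSet L, (n.mem omN ⊓ lstV t n)) ∧
    (∀ (t t' : Finset ℕ) (n : ℕ), LastN t n → LastN t' (n + 1) → (∀ m < n, (m ∈ t ↔ m ∈ t')) →
      b ⊓ (fsN t).mem G ≤ (fsN t').mem G) ∧
    (∀ (n : ℕ) (t : Finset ℕ), n < k → LastN t n → b ⊓ (fsN t).mem G = ⊥) ∧
    (∀ n : ℕ, k ≤ n → b ≤ injV (fun t => t.mem G ⊓ lstV t (nn n))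
      (fun u => subV u (nn n) ⊓ ⨅ m : BSet L, (m.mem u ⇨ (m.mem (nn k))ᶜ))) := by
  obtain ⟨nat1, nat2, nat3, nat4⟩ := nat L
  obtain ⟨f1, f2, f3, f4, f5⟩ := fn2 L
  have hmem : ∀ n : ℕ, (nn n : BSet L).mem omN = ⊤ := by
    intro n
    rw [nat2, eq_top_iff]
    refine le_trans ?_ (le_iSup _ n)
    rw [BSet.eq_refl]
  unfold codeV at h
  have h1 := h.trans inf_le_left
  have h2 := (h.trans inf_le_right).trans inf_le_left
  have h3 := ((h.trans inf_le_right).trans inf_le_right).trans inf_le_left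
  have h4 := ((h.trans inf_le_right).trans inf_le_right).trans inf_le_right
  refine ⟨?_, ?_, ?_, ?_⟩
  · intro t
    rw [← le_himp_iff]
    exact h1.trans (iInf_le _ t)
  · intro t t' n ht ht' htt
    have h5 := (((h2.trans (iInf_le _ (fsN t))).trans (iInf_le _ (fsN t'))).trans
      (iInf_le _ (nn n))).trans (iInf_le _ (nn (n + 1)))
    rw [hmem, f2, f5, f2, f4, bo_true ht, bo_true rfl, bo_true ht', bo_true htt] at h5
    simp only [inf_top_eq, top_inf_eq] at h5
    rwa [le_himp_iff] at h5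
  · intro n t hn ht
    have h5 := (h3.trans (iInf_le _ (nn n))).trans (iInf_le _ (fsN t))
    rw [hmem, nat4, f2, bo_true hn, bo_true ht] at h5
    simp only [top_inf_eq, compl_top] at h5
    rw [le_himp_iff] at h5
    exact le_bot_iff.1 h5
  · intro n hn
    have h5 := h4.trans (iInf_le _ (nn n))
    rw [hmem, nat4, bo_false (not_lt.2 hn)] at h5
    simp only [top_inf_eq, compl_bot, top_himp] at h5
    exact h5

theorem exists_code (nat : G_NAT) (ex2 : G_EX2) (M : BSet L) (k : ℕ) :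
    ∃ G : BSet L, nullV omN M ≤ codeV omN (nn k) G ⊓ covV G M := by
  obtain ⟨nat1, nat2, nat3, nat4⟩ := nat L
  obtain ⟨e1, e2, e3⟩ := ex2 L
  have hmem : (nn k : BSet L).mem omN = ⊤ := by
    rw [nat2, eq_top_iff]
    refine le_trans ?_ (le_iSup _ k)
    rw [BSet.eq_refl]
  obtain ⟨⟨G, -, hG⟩, -⟩ := Pool.Agent.Helper46.FL.full L
    (fun F => codeV omN (nn k) F ⊓ covV F M) (fun _ => ⊤)
    (BSet.Ext.inf (e1 omN (nn k)).2 (e2 M).1) (BSet.Ext.const ⊤) ⟨omN, rfl⟩
  refine ⟨G, ?_⟩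
  have h1 : nullV omN M ≤ ⨆ F : BSet L, (codeV omN (nn k) F ⊓ covV F M) := by
    unfold nullV
    refine inf_le_right.trans ((iInf_le _ (nn k)).trans ?_)
    rw [hmem, top_himp]
  refine h1.trans (le_of_eq ?_)
  have h2 : codeV omN (nn k) G ⊓ covV G M = ⨆ y : BSet L, (⊤ ⊓ (codeV omN (nn k) y ⊓ covV y M)) := hG
  rw [h2]
  simp only [top_inf_eq]

theorem lastN_fin (n : ℕ) : {t : Finset ℕ | LastN t n}.Finite := by
  refine Set.Finite.subset (Finset.finite_toSet (Finset.range (n + 1)).powerset) ?_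
  intro t ht
  rw [Finset.mem_coe, Finset.mem_powerset]
  intro m hm
  rw [Finset.mem_range]
  exact Nat.lt_succ_of_le (ht.2 m hm)

/-- measurability and values of the set of points where the code is good -/
theorem good_le (ehom : G_EHOM) (h : AlgI S L e) (k : ℕ) (K : Finset ℕ → Set (Pt S))
    (hK : ∀ t, MeasurableSet (K t)) (b : L) (h1 : b ⊓ e (K ∅) ≤ ⊥)
    (h2 : ∀ (t t' : Finset ℕ) (n : ℕ), LastN t n → LastN t' (n + 1) →
      (∀ m < n, (m ∈ t ↔ m ∈ t')) → b ⊓ e (K t) ≤ e (K t'))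
    (h3 : ∀ (n : ℕ) (T : Finset (Finset ℕ)), (∀ t ∈ T, LastN t n) → 2 ^ n < T.card * 2 ^ k →
      b ⊓ ⨅ t ∈ T, e (K t) ≤ ⊥) :
    b ≤ e {z | Good k {t | z ∈ K t}} := by
  classical
  obtain ⟨hu, hemp, -, hc, hint, hcount, hnul⟩ := ehom S L e h
  -- three families of conditions
  set A2 : Finset ℕ × Finset ℕ × ℕ → Set (Pt S) := fun p =>
    {z | z ∈ K p.1 → LastN p.1 p.2.2 → LastN p.2.1 (p.2.2 + 1) →
      (∀ m < p.2.2, (m ∈ p.1 ↔ m ∈ p.2.1)) → z ∈ K p.2.1} with hA2
  set A3 : ℕ → Set (Pt S) := fun n =>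
    (⋃ T : {T : Finset (Finset ℕ) // (∀ t ∈ T, LastN t n) ∧ 2 ^ n < T.card * 2 ^ k},
      ⋂ t ∈ T.1, K t)ᶜ with hA3
  have hm1 : MeasurableSet (K ∅)ᶜ := (hK ∅).compl
  have hA2' : ∀ p, A2 p = if LastN p.1 p.2.2 ∧ LastN p.2.1 (p.2.2 + 1) ∧
      (∀ m < p.2.2, (m ∈ p.1 ↔ m ∈ p.2.1)) then (K p.1)ᶜ ∪ K p.2.1 else Set.univ := by
    intro p
    ext z
    split_ifs with hp
    · show (z ∈ K p.1 → LastN p.1 p.2.2 → LastN p.2.1 (p.2.2 + 1) →
        (∀ m < p.2.2, (m ∈ p.1 ↔ m ∈ p.2.1)) → z ∈ K p.2.1) ↔ (z ∉ K p.1 ∨ z ∈ K p.2.1)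
      constructor
      · intro h4
        by_cases h5 : z ∈ K p.1
        · exact Or.inr (h4 h5 hp.1 hp.2.1 hp.2.2)
        · exact Or.inl h5
      · rintro (h4 | h4) h5 _ _ _
        · exact absurd h5 h4
        · exact h4
    · show (z ∈ K p.1 → LastN p.1 p.2.2 → LastN p.2.1 (p.2.2 + 1) →
        (∀ m < p.2.2, (m ∈ p.1 ↔ m ∈ p.2.1)) → z ∈ K p.2.1) ↔ True
      rw [iff_true]
      intro _ a1 a2 a3
      exact absurd ⟨a1, a2, a3⟩ hp
  have hm2 : ∀ p, MeasurableSet (A2 p) := by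
    intro p
    rw [hA2' p]
    split_ifs
    · exact (hK _).compl.union (hK _)
    · exact MeasurableSet.univ
  have hm3' : ∀ T : Finset (Finset ℕ), MeasurableSet (⋂ t ∈ T, K t) := fun T =>
    T.measurableSet_biInter fun t _ => hK t
  have hm3u : ∀ n, MeasurableSet (⋃ T : {T : Finset (Finset ℕ) // (∀ t ∈ T, LastN t n) ∧
      2 ^ n < T.card * 2 ^ k}, ⋂ t ∈ T.1, K t) := fun n =>
    MeasurableSet.iUnion fun T => hm3' T.1
  have hm3 : ∀ n, MeasurableSet (A3 n) := fun n => (hm3u n).compl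
  have hset : {z | Good k {t | z ∈ K t}} = (K ∅)ᶜ ∩ ((⋂ p, A2 p) ∩ ⋂ n, A3 n) := by
    ext z
    constructor
    · intro hz
      refine ⟨?_, ?_, ?_⟩
      · intro h4
        exact Finset.not_nonempty_empty (hz.ne ∅ h4)
      · rw [mem_iInter]
        intro p h4 h5 h6 h7
        exact hz.mono p.1 p.2.1 p.2.2 h4 h5 h6 h7
      · rw [mem_iInter]
        intro n hn
        rw [mem_iUnion] at hn
        obtain ⟨⟨T, hT1, hT2⟩, hT⟩ := hn
        have h4 := hz.card n
        have h5 : T.card ≤ {t ∈ {t | z ∈ K t} | LastN t n}.ncard := by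
          rw [← Set.ncard_coe_finset T]
          apply Set.ncard_le_ncard
          · intro t ht
            have ht' : t ∈ T := ht
            refine ⟨?_, hT1 t ht'⟩
            have h6 := mem_iInter.1 hT t
            exact mem_iInter.1 h6 ht'
          · exact (lastN_fin n).subset fun t ht => ht.2
        have h6 : T.card * 2 ^ k ≤ {t ∈ {t | z ∈ K t} | LastN t n}.ncard * 2 ^ k :=
          Nat.mul_le_mul_right _ h5
        omega
    · rintro ⟨h4, h5, h6⟩
      rw [mem_iInter] at h5 h6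
      refine ⟨?_, ?_, ?_⟩
      · intro t ht
        rw [Finset.nonempty_iff_ne_empty]
        rintro rfl
        exact h4 ht
      · intro t t' n h7 h8 h9 h10
        exact h5 (t, t', n) h7 h8 h9 h10
      · intro n
        by_contra hcon
        have hfin : {t ∈ {t | z ∈ K t} | LastN t n}.Finite :=
          (lastN_fin n).subset fun t ht => ht.2
        apply h6 n
        rw [mem_iUnion]
        refine ⟨⟨hfin.toFinset, ?_, ?_⟩, ?_⟩
        · intro t ht
          exact ((Set.Finite.mem_toFinset _).1 ht).2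
        · rw [← Set.ncard_eq_toFinset_card _ hfin]
          omega
        · rw [mem_iInter]
          intro t
          rw [mem_iInter]
          intro ht
          exact ((Set.Finite.mem_toFinset _).1 ht).1
  have hval1 : b ≤ e (K ∅)ᶜ := by
    rw [hc _ (hK ∅)]
    rwa [le_compl_iff_disjoint_right, disjoint_iff_inf_le]
  have hval2 : ∀ p, b ≤ e (A2 p) := by
    intro p
    rw [hA2' p]
    split_ifs with hp
    · rw [(hint _ _ (hK _).compl (hK _)).2, hc _ (hK _)]
      have h4 := h2 p.1 p.2.1 p.2.2 hp.1 hp.2.1 hp.2.2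
      rw [← le_himp_iff, himp_eq] at h4
      rwa [sup_comm] at h4
    · rw [hu]; exact le_top
  have hval3 : ∀ n, b ≤ e (A3 n) := by
    intro n
    simp only [hA3]
    rw [hc _ (hm3u n), le_compl_iff_disjoint_right, disjoint_iff_inf_le,
      (hcount {T : Finset (Finset ℕ) // (∀ t ∈ T, LastN t n) ∧ 2 ^ n < T.card * 2 ^ k}
        (fun T => ⋂ t ∈ T.1, K t) (fun T => hm3' T.1)).1, inf_iSup_eq]
    refine iSup_le fun T => ?_
    refine le_trans ?_ (h3 n T.1 T.2.1 T.2.2)
    refine inf_le_inf_left _ (le_iInf fun t => le_iInf fun ht => ?_)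
    apply e_mono h (hm3' _) (hK t)
    intro z hz
    exact mem_iInter.1 (mem_iInter.1 hz t) ht
  have hmA : MeasurableSet (⋂ p, A2 p) := MeasurableSet.iInter hm2
  have hmB : MeasurableSet (⋂ n, A3 n) := MeasurableSet.iInter hm3
  rw [hset, (hint _ _ hm1 (hmA.inter hmB)).1, (hint _ _ hmA hmB).1, (hcount _ _ hm2).2,
    (hcount _ _ hm3).2]
  exact le_inf hval1 (le_inf (le_iInf hval2) (le_iInf hval3))

theorem nu1 (ehom : G_EHOM) (nat : G_NAT) (fn1 : G_FN1) (fn2 : G_FN2) (ex1 : G_EX1) (ex2 : G_EX2)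
    (rea : G_REA) (ij1 : G_IJ1) : G_NU1 := by
  intro S L _ e h M
  obtain ⟨hu, hemp, -, hc, hint, hcount, hnul⟩ := ehom S L e h
  obtain ⟨nat1, nat2, nat3, nat4⟩ := nat L
  obtain ⟨f1, f2, f3, f4, f5⟩ := fn2 L
  obtain ⟨g1, g2, g3, g4⟩ := fn1 L
  obtain ⟨x1, x2, x3, x4, x5⟩ := ex1 L
  obtain ⟨r1, r2, r3, r4⟩ := rea S L e h
  have hG := exists_code nat ex2 M
  choose G hG using hG
  have hK : ∀ k t, ∃ K, MeasurableSet K ∧ e K = (fsN t).mem (G k) := fun k t => h.surj _
  choose K hKm hKe using hK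
  set b := nullV omN M with hb
  have hcl := fun k => clauses nat fn2 ((hG k).trans inf_le_left)
  refine ⟨fun k z => {t | z ∈ K k t}, fun k t => hKm k t, fun k => ?_, fun w hw k => ?_⟩
  · obtain ⟨c1, c2, c3, c4⟩ := hcl k
    refine good_le ehom h k (K k) (hKm k) b ?_ ?_ ?_
    · rw [hKe]
      refine (c1 (fsN ∅)).trans (iSup_le fun n => ?_)
      unfold lstV
      refine inf_le_right.trans (inf_le_left.trans ?_)
      rw [g2]
      refine iSup_le fun m => ?_
      rw [bo_false (Finset.notMem_empty m), inf_bot_eq]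
    · intro t t' n ht ht' htt
      rw [hKe, hKe]
      exact c2 t t' n ht ht' htt
    · intro n T hT hcard
      rcases lt_or_ge n k with hn | hn
      · have hTne : T.Nonempty := by
          rw [Finset.nonempty_iff_ne_empty]
          rintro rfl
          simp at hcard
        obtain ⟨t, ht⟩ := hTne
        refine (inf_le_inf_left b ((iInf_le _ t).trans (iInf_le _ ht))).trans ?_
        rw [hKe, c3 n t hn (hT t ht)]
      · have hcard' : 2 ^ (n - k) < T.card := by
          have h5 : 2 ^ n = 2 ^ (n - k) * 2 ^ k := by rw [← pow_add]; congr 1; omega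
          rw [h5] at hcard
          exact lt_of_mul_lt_mul_right hcard (Nat.zero_le _)
        have h6 := ij1 L (fun t => t.mem (G k) ⊓ lstV t (nn n)) n k T hcard'
        refine le_trans ?_ (le_of_eq h6)
        refine inf_le_inf (c4 n hn) (le_iInf fun t => le_iInf fun ht => ?_)
        refine ((iInf_le _ t).trans (iInf_le _ ht)).trans ?_
        rw [hKe, f2, bo_true (hT t ht), inf_top_eq]
  · obtain ⟨c1, c2, c3, c4⟩ := hcl k
    have hcyl : ∀ (t : Finset ℕ) (n : ℕ), MeasurableSet {z : Pt S | ∀ m < n, (m ∈ t ↔ w z m = true)} := by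
      intro t n
      have : {z : Pt S | ∀ m < n, (m ∈ t ↔ w z m = true)} =
          ⋂ m : ℕ, ⋂ _ : m < n, {z | (m ∈ t ↔ w z m = true)} := by
        ext z; simp
      rw [this]
      refine MeasurableSet.iInter fun m => MeasurableSet.iInter fun _ => ?_
      have hwm : Measurable fun z : Pt S => w z m := (measurable_pi_apply m).comp hw
      by_cases hm : m ∈ t
      · have : {z : Pt S | (m ∈ t ↔ w z m = true)} = {z | w z m = true} := by
          ext z; simp [hm]
        rw [this]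
        exact hwm (measurableSet_singleton true)
      · have : {z : Pt S | (m ∈ t ↔ w z m = true)} = {z | w z m = true}ᶜ := by
          ext z; simp [hm]
        rw [this]
        exact (hwm (measurableSet_singleton true)).compl
    have hopen : {z | w z ∈ OpenOf {t | z ∈ K k t}} =
        ⋃ p : Finset ℕ × ℕ, {z | LastN p.1 p.2 ∧ (z ∈ K k p.1 ∧ ∀ m < p.2, (m ∈ p.1 ↔ w z m = true))} := by
      ext z
      simp only [mem_iUnion]
      constructor
      · rintro ⟨t, ht, n, hn, hcy⟩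
        exact ⟨(t, n), hn, ht, fun m hm => (hcy m hm).symm⟩
      · rintro ⟨p, hn, ht, hcy⟩
        exact ⟨p.1, ht, p.2, hn, fun m hm => (hcy m hm).symm⟩
    have hopm : MeasurableSet {z | w z ∈ OpenOf {t | z ∈ K k t}} := by
      rw [hopen]
      refine MeasurableSet.iUnion fun p => ?_
      by_cases hp : LastN p.1 p.2
      · have : {z | LastN p.1 p.2 ∧ (z ∈ K k p.1 ∧ ∀ m < p.2, (m ∈ p.1 ↔ w z m = true))} =
            K k p.1 ∩ {z | ∀ m < p.2, (m ∈ p.1 ↔ w z m = true)} := by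
          ext z; simp [hp]
        rw [this]
        exact (hKm _ _).inter (hcyl _ _)
      · have : {z | LastN p.1 p.2 ∧ (z ∈ K k p.1 ∧ ∀ m < p.2, (m ∈ p.1 ↔ w z m = true))} = ∅ := by
          ext z; simp [hp]
        rw [this]
        exact MeasurableSet.empty
    have hfin : ∀ (i : ℕ) (t₀ : Finset ℕ), LastN t₀ i →
        e (K k t₀) ⊓ agbV (nn i) (fsN t₀) (rnN e w) ≤ e {z | w z ∈ OpenOf {t | z ∈ K k t}} := by
      intro i t₀ ht₀
      rw [r4 w hw, ← (hint _ _ (hKm k t₀) (hcyl t₀ i)).1]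
      apply e_mono h ((hKm k t₀).inter (hcyl t₀ i)) hopm
      rintro z ⟨hz1, hz2⟩
      exact ⟨t₀, hz1, i, ht₀, fun m hm => (hz2 m hm).symm⟩
    have hcov : b ⊓ (rnN e w).mem M ≤ ⨆ t : BSet L, ⨆ n : BSet L,
        (t.mem (G k) ⊓ (lstV t n ⊓ agbV n t (rnN e w))) := by
      rw [← le_himp_iff]
      exact ((hG k).trans inf_le_right).trans (iInf_le _ (rnN e w))
    -- transitivity of omN
    have htr : ∀ n n' : BSet L, n.mem n' ⊓ n'.mem omN ≤ n.mem omN := by
      intro n n'
      rw [nat2 n', inf_iSup_eq]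
      refine iSup_le fun i => ?_
      have h5 : n.mem n' ⊓ n'.eq (nn i) ≤ n.mem (nn i) := by
        rw [inf_comm]
        exact BSet.mem_congr_right _ _ _
      refine h5.trans ?_
      rw [nat1, nat2]
      exact iSup_le fun j => le_iSup (fun j => n.eq (nn j)) j.1
    have hcov2 : b ⊓ (rnN e w).mem M ≤ b ⊓ ⨆ t : BSet L, ⨆ n : BSet L,
        (t.mem (G k) ⊓ (lstV t n ⊓ agbV n t (rnN e w))) := le_inf inf_le_left hcov
    refine hcov2.trans ?_
    rw [inf_iSup_eq]
    refine iSup_le fun t => ?_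
    rw [inf_iSup_eq]
    refine iSup_le fun n => ?_
    -- n is in omega
    have hn : b ⊓ (t.mem (G k) ⊓ (lstV t n ⊓ agbV n t (rnN e w))) ≤ n.mem omN := by
      have h5 : b ⊓ (t.mem (G k) ⊓ (lstV t n ⊓ agbV n t (rnN e w))) ≤
          (⨆ n' : BSet L, (n'.mem omN ⊓ lstV t n')) ⊓ lstV t n := by
        refine le_inf (le_trans ?_ (c1 t)) ?_
        · exact le_inf inf_le_left (inf_le_right.trans inf_le_left)
        · exact inf_le_right.trans (inf_le_right.trans inf_le_left)
      refine h5.trans ?_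
      rw [iSup_inf_eq]
      refine iSup_le fun n' => ?_
      have h6 : lstV t n' ⊓ lstV t n ≤ n.mem n' ⊔ n.eq n' := by
        have h7 : lstV t n' ≤ (n.mem t ⇨ (n.mem n' ⊔ n.eq n')) := inf_le_right.trans (iInf_le _ n)
        have h8 : lstV t n ≤ n.mem t := inf_le_left
        exact (inf_le_inf h7 h8).trans himp_inf_le
      have h9 : n'.mem omN ⊓ lstV t n' ⊓ lstV t n ≤ (n.mem n' ⊔ n.eq n') ⊓ n'.mem omN := by
        refine le_inf (le_trans ?_ h6) (inf_le_left.trans inf_le_left)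
        exact inf_le_inf_right _ inf_le_right
      refine h9.trans ?_
      rw [inf_sup_right]
      refine sup_le (htr n n') ?_
      rw [BSet.eq_comm']
      exact BSet.mem_congr_left _ _ _
    have hn2 : b ⊓ (t.mem (G k) ⊓ (lstV t n ⊓ agbV n t (rnN e w))) ≤
        (⨆ i : ℕ, n.eq (nn i)) ⊓ (t.mem (G k) ⊓ (lstV t n ⊓ agbV n t (rnN e w))) := by
      rw [← nat2]
      exact le_inf hn inf_le_right
    refine hn2.trans ?_
    rw [iSup_inf_eq]
    refine iSup_le fun i => ?_
    have h5 : n.eq (nn i) ⊓ (t.mem (G k) ⊓ (lstV t n ⊓ agbV n t (rnN e w))) ≤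
        (⨆ t₀ : Finset ℕ, ⨆ _ : LastN t₀ i, t.eq (fsN t₀)) ⊓
          (t.mem (G k) ⊓ agbV (nn i) t (rnN e w)) := by
      refine le_inf ?_ (le_inf ?_ ?_)
      · refine le_trans ?_ (f1 i t)
        refine le_trans ?_ ((x3 t).2 n (nn i))
        exact le_inf inf_le_left (inf_le_right.trans (inf_le_right.trans inf_le_left))
      · exact inf_le_right.trans inf_le_left
      · refine le_trans ?_ ((x4 t (rnN e w)).1 n (nn i))
        exact le_inf inf_le_left (inf_le_right.trans (inf_le_right.trans inf_le_right))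
    refine h5.trans ?_
    rw [iSup_inf_eq]
    refine iSup_le fun t₀ => ?_
    rw [iSup_inf_eq]
    refine iSup_le fun ht₀ => ?_
    refine le_trans ?_ (hfin i t₀ ht₀)
    refine le_inf ?_ ?_
    · rw [hKe]
      refine le_trans ?_ (BSet.mem_congr_left t (fsN t₀) (G k))
      exact le_inf inf_le_left (inf_le_right.trans inf_le_left)
    · refine le_trans ?_ ((x4 (nn i) (rnN e w)).2.1 t (fsN t₀))
      exact le_inf inf_le_left (inf_le_right.trans inf_le_right)

end NU.PkNU1
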